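import Pool.Agent.Helper87.VM.Lib2

set_option autoImplicit false

namespace Pool.Agent.Helper87.VM

theorem fac1_max {κ : Type} [Fintype κ] (p : κ → Polynomial ℂ) (h : ∃ i, p i ≠ 0) :
    ∃ i₁, p i₁ ≠ 0 ∧ ∀ i, (p i).natDegree ≤ (p i₁).natDegree := by
  classical
  obtain ⟨i, hi⟩ := h
  obtain ⟨i₁, hi₁, hmax⟩ := Finset.exists_max_image (Finset.univ.filter fun i => p i ≠ 0)
    (fun i => (p i).natDegree) ⟨i, by simpa using hi⟩
  refine ⟨i₁, (Finset.mem_filter.1 hi₁).2, ?_⟩
  intro i
  by_cases h0 : p i = 0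
  · rw [h0, Polynomial.natDegree_zero]
    exact Nat.zero_le _
  · exact hmax i (by simpa using h0)

theorem st_FAC1 : ST_FAC1 := by
  classical
  intro κ₁ κ₂ _ _ d u hu hr
  -- the minors
  have hmin : ∀ i i' j j', u (i, j) * u (i', j') = u (i, j') * u (i', j) := by
    intro i i' j j'
    refine Polynomial.funext fun t => ?_
    obtain ⟨x, y, hxy⟩ := hr 1 t
    have h1 : ∀ i j, (u (i, j)).eval t = x i * y j := by
      intro i j
      rw [← hev_one (hu.deg (i, j)) t]
      exact congrFun hxy (i, j)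
    rw [Polynomial.eval_mul, Polynomial.eval_mul, h1, h1, h1, h1]
    ring
  -- a nonzero entry
  obtain ⟨⟨i₀, j₀⟩, h0⟩ : ∃ a, u a ≠ 0 := by
    by_contra hcon
    push Not at hcon
    refine hu.ne 1 0 (by simp) ?_
    funext a
    show hev d (u a) 1 0 = 0
    rw [hcon a, hev_zero]
  -- the greatest common divisor of a column
  obtain ⟨g, hg⟩ : ∃ g, Ideal.span (Set.range fun i => u (i, j₀)) = Ideal.span {g} :=
    (IsPrincipalIdealRing.principal (Ideal.span (Set.range fun i => u (i, j₀)))).principal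
  have hdvd : ∀ i, g ∣ u (i, j₀) := by
    intro i
    have h1 : u (i, j₀) ∈ Ideal.span {g} := by
      rw [← hg]
      exact Ideal.subset_span ⟨i, rfl⟩
    exact Ideal.mem_span_singleton.1 h1
  choose p hp using hdvd
  have hg0 : g ≠ 0 := by
    intro h
    apply h0
    rw [hp i₀, h, zero_mul]
  obtain ⟨c, hc⟩ : ∃ c : κ₁ → Polynomial ℂ, ∑ i, c i * u (i, j₀) = g := by
    have h1 : g ∈ Ideal.span (Set.range fun i => u (i, j₀)) := by
      rw [hg]
      exact Ideal.mem_span_singleton_self g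
    exact Ideal.mem_span_range_iff_exists_fun.1 h1
  have hc1 : ∑ i, c i * p i = 1 := by
    have h1 : g * ∑ i, c i * p i = g * 1 := by
      rw [Finset.mul_sum, mul_one]
      conv_rhs => rw [← hc]
      refine Finset.sum_congr rfl fun i _ => ?_
      rw [hp i]
      ring
    exact mul_left_cancel₀ hg0 h1
  have hcr : ∀ i i' j, u (i, j) * p i' = p i * u (i', j) := by
    intro i i' j
    have h1 := hmin i i' j j₀
    rw [hp i', hp i] at h1
    exact mul_left_cancel₀ hg0 (by linear_combination h1)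
  set q : κ₂ → Polynomial ℂ := fun j => ∑ i, c i * u (i, j) with hq
  have hpq : ∀ i j, u (i, j) = p i * q j := by
    intro i j
    have h1 : p i * q j = ∑ i', c i' * (u (i, j) * p i') := by
      rw [hq, Finset.mul_sum]
      refine Finset.sum_congr rfl fun i' _ => ?_
      rw [hcr]
      ring
    have h2 : ∑ i', c i' * (u (i, j) * p i') = u (i, j) * ∑ i', c i' * p i' := by
      rw [Finset.mul_sum]
      refine Finset.sum_congr rfl fun i' _ => ?_
      ring
    rw [h1, h2, hc1, mul_one]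
  have hp0 : ∃ i, p i ≠ 0 := ⟨i₀, fun h => h0 (by rw [hpq, h, zero_mul])⟩
  have hq0 : ∃ j, q j ≠ 0 := ⟨j₀, fun h => h0 (by rw [hpq, h, mul_zero])⟩
  obtain ⟨i₁, hi₁, hmp⟩ := fac1_max p hp0
  obtain ⟨j₁, hj₁, hmq⟩ := fac1_max q hq0
  have hd : (p i₁).natDegree + (q j₁).natDegree = d := by
    refine le_antisymm ?_ ?_
    · rw [← Polynomial.natDegree_mul hi₁ hj₁, ← hpq]
      exact hu.deg (i₁, j₁)
    · by_contra hcon
      push Not at hcon
      refine hu.ne 0 1 (by simp) ?_
      funext a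
      obtain ⟨i, j⟩ := a
      show hev d (u (i, j)) 0 1 = 0
      rw [hev_zero_left, Polynomial.coeff_eq_zero_of_natDegree_lt, zero_mul]
      rw [hpq]
      refine lt_of_le_of_lt Polynomial.natDegree_mul_le ?_
      have h1 := hmp i
      have h2 := hmq j
      omega
  have hev_u : ∀ i j s t, hev d (u (i, j)) s t
      = hev (p i₁).natDegree (p i) s t * hev (q j₁).natDegree (q j) s t := by
    intro i j s t
    rw [hpq, ← hd, hev_mul (hmp i) (hmq j)]
  refine ⟨(p i₁).natDegree, (q j₁).natDegree, p, q, hd, ⟨hmp, ?_⟩, ⟨hmq, ?_⟩, hpq⟩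
  · intro s t hst h
    refine hu.ne s t hst ?_
    funext a
    obtain ⟨i, j⟩ := a
    show hev d (u (i, j)) s t = 0
    have h1 : hev (p i₁).natDegree (p i) s t = 0 := congrFun h i
    rw [hev_u, h1, zero_mul]
  · intro s t hst h
    refine hu.ne s t hst ?_
    funext a
    obtain ⟨i, j⟩ := a
    show hev d (u (i, j)) s t = 0
    have h1 : hev (q j₁).natDegree (q j) s t = 0 := congrFun h j
    rw [hev_u, h1, mul_zero]

end Pool.Agent.Helper87.VM
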